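import Pool.Agent.Helper22.G4.St.C0

/-! # G4-C5: basic conditions on flats -/

namespace Pool.Agent.Helper2.G4

open Pool.Agent.Helper22.G4

/-- the basic conditions on one flat -/
def C5Good (I : NF) (R : Flat Vx Fc) : Prop :=
  4 ≤ R.1.length ∧ R.1.Nodup ∧ (∀ a ∈ R.1, a ∈ I.data.verts) ∧ R.2.1 ∈ I.data.fcodes ∧
    R.2.2 ∈ I.data.fcodes ∧ R.2.1 ≠ R.2.2

theorem c5_verts {I : NF} {d : OpD} (hd : d ∈ I.opds) {v : Vx} (hv : v ∈ OpD.verts I.N d) :
    v ∈ I.data.verts :=
  NF.mem_verts.2 (Or.inr (Or.inr (Or.inr ⟨d, hd, hv⟩)))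

theorem c5_facets {I : NF} {d : OpD} (hd : d ∈ I.opds) {f : Fc}
    (hf : f ∈ OpD.facets I.M I.N d) : f ∈ I.data.fcodes :=
  NF.mem_fcodes.2 (Or.inr (Or.inr ⟨d, hd, hf⟩))

theorem c5_u0 {I : NF} {i j : ℕ} (hi : i < I.N) (hj : j = i + 1) :
    Vx.u 0 i j ∈ I.data.verts := by
  subst hj
  exact NF.mem_verts.2 (Or.inr (Or.inr (Or.inl ⟨i, hi, rfl⟩)))

theorem c5_page0 {I : NF} (hI : I.OK) : C5Good I I.page0 := by
  obtain ⟨hM, hM', hN, hN2⟩ := NF.size hI
  refine ⟨?_, ?_, ?_, ?_, ?_, ?_⟩
  · simp only [NF.page0, List.length_append, List.length_map, List.length_range,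
      List.length_cons, List.length_nil]
    omega
  · simp only [NF.page0]
    rw [List.nodup_append]
    refine ⟨?_, ?_, ?_⟩
    · refine List.Nodup.map ?_ List.nodup_range
      intro i j hij
      simp only [Vx.u, Prod.mk.injEq] at hij
      omega
    · simp [Vx.b1, Vx.b2, Vx.u]
    · intro a ha b hb
      simp only [List.mem_map, List.mem_range] at ha
      obtain ⟨i, _, rfl⟩ := ha
      simp only [List.mem_cons, List.not_mem_nil, or_false] at hb
      rcases hb with rfl | rfl | rfl <;> simp [Vx.b1, Vx.b2, Vx.u]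
  · intro a ha
    simp only [NF.page0, List.mem_append, List.mem_map, List.mem_range, List.mem_cons,
      List.not_mem_nil, or_false] at ha
    rcases ha with ⟨i, hi, rfl⟩ | rfl | rfl | rfl
    · exact c5_u0 (by omega) (by omega)
    · exact NF.b_mem.1
    · exact NF.b_mem.2
    · exact c5_u0 (by omega) (by omega)
  · exact NF.mem_fcodes.2 (Or.inl rfl)
  · have hlen : 0 < I.ops.length := by omega
    obtain ⟨d, hd, hdn⟩ := NF.opds_exists (I := I) (n := I.ops.length - 1) (by omega)
    have h1 : d.pd = I.M := by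
      unfold OpD.pd
      omega
    have h2 : d.nxt I.M = 0 := by
      unfold OpD.nxt
      rw [if_pos (by omega)]
    have h3 : Fc.Q I.N d.pd (d.nxt I.M) ∈ I.data.fcodes := c5_facets hd (by simp [OpD.facets])
    rw [h1, h2] at h3
    exact h3
  · simp only [NF.page0, Fc.Q, ne_eq, Prod.mk.injEq]
    omega

theorem c5_squad {I : NF} (hI : I.OK) {a i s j : ℕ} (ha : 1 ≤ a) (ha' : a ≤ I.M) (hs : 1 ≤ s)
    (hs' : s < I.N) (his : i < s) (h1 : Vx.u a i s ∈ I.data.verts)
    (h2 : Vx.u a s j ∈ I.data.verts) : C5Good I (OpD.squad I.M I.N a i s j) := by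
  obtain ⟨hM, hM', hN, hN2⟩ := NF.size hI
  refine ⟨?_, ?_, ?_, ?_, ?_, ?_⟩
  · simp [OpD.squad]
  · simp only [OpD.squad, List.nodup_cons, List.mem_cons, List.not_mem_nil, or_false, Vx.u,
      Prod.mk.injEq, not_false_eq_true, List.nodup_nil, and_true, true_and, not_or]
    omega
  · intro v hv
    simp only [OpD.squad, List.mem_cons, List.not_mem_nil, or_false] at hv
    rcases hv with rfl | rfl | rfl | rfl
    · exact c5_u0 (by omega) (by omega)
    · exact h1
    · exact h2
    · exact c5_u0 (by omega) (by omega)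
  · exact NF.prev_mem hI ha ha' (by omega)
  · exact NF.next_mem hI ha ha' (by omega)
  · simp only [OpD.squad, OpD.prev, OpD.next]
    split_ifs <;> simp only [Fc.Q, Fc.F, ne_eq, Prod.mk.injEq] <;> omega

/-- the full facet before page `pa` -/
theorem c5_before {I : NF} (hI : I.OK) {d : OpD} (hd : d ∈ I.opds) :
    Fc.Q I.N (d.pa - 1) d.pa ∈ I.data.fcodes := by
  obtain ⟨hM, hM', hN, hN2⟩ := NF.size hI
  have hk := (NF.opd_ok hI hd).1
  by_cases h0 : d.n = 0
  · have h1 : d.pa = 1 := by
      unfold OpD.pa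
      omega
    rw [h1]
    exact NF.mem_fcodes.2 (Or.inl rfl)
  · obtain ⟨e, he, hen⟩ := NF.opds_exists (I := I) (n := d.n - 1) (by omega)
    have h1 : e.pd = d.pa - 1 := by
      unfold OpD.pd OpD.pa
      omega
    have h2 : e.nxt I.M = d.pa := by
      unfold OpD.nxt OpD.pa
      rw [if_neg (by omega)]
      omega
    have h3 : Fc.Q I.N e.pd (e.nxt I.M) ∈ I.data.fcodes := c5_facets he (by simp [OpD.facets])
    rw [h1, h2] at h3
    exact h3

theorem c5_op {I : NF} (hI : I.OK) {d : OpD} (hd : d ∈ I.opds) {R : Flat Vx Fc}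
    (hR : R ∈ OpD.flats I.M I.N d) : C5Good I R := by
  obtain ⟨hM, hM', hN, hN2⟩ := NF.size hI
  obtain ⟨k1, k2, k3, k4, k5, k6, k7, k8, -, -⟩ := NF.opd_ok hI hd
  have hv : ∀ {v : Vx}, v ∈ OpD.verts I.N d → v ∈ I.data.verts := fun h => c5_verts hd h
  have hf : ∀ {f : Fc}, f ∈ OpD.facets I.M I.N d → f ∈ I.data.fcodes := fun h => c5_facets hd h
  have pa : d.pa = 4 * d.n + 1 := rfl
  have pb : d.pb = 4 * d.n + 2 := rfl
  have pc : d.pc = 4 * d.n + 3 := rfl
  have pd : d.pd = 4 * d.n + 4 := rfl
  have g0 : d.g0 = 3 * d.n := rfl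
  have g1 : d.g1 = 3 * d.n + 1 := rfl
  have g2 : d.g2 = 3 * d.n + 2 := rfl
  simp only [OpD.flats, List.mem_cons, List.not_mem_nil, or_false] at hR
  rcases hR with rfl | rfl | rfl | rfl | rfl | rfl | rfl | rfl | rfl | rfl | rfl | rfl | rfl |
    rfl | rfl | rfl | rfl
  -- the pages
  · refine ⟨by simp, ?_, ?_, c5_before hI hd, hf (by simp [OpD.facets]), ?_⟩
    · simp only [List.nodup_cons, List.mem_cons, List.not_mem_nil, or_false, Vx.u, Vx.b1, Vx.b2,
        Prod.mk.injEq, not_false_eq_true, List.nodup_nil, and_true, true_and, not_or]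
      omega
    · intro v h
      simp only [List.mem_cons, List.not_mem_nil, or_false] at h
      rcases h with rfl | rfl | rfl | rfl | rfl
      · exact NF.b_mem.1
      · exact hv (by simp [OpD.verts])
      · exact hv (by simp [OpD.verts])
      · exact hv (by simp [OpD.verts])
      · exact NF.b_mem.2
    · simp only [Fc.Q, Fc.GY, ne_eq, Prod.mk.injEq]
      omega
  · refine ⟨by simp, ?_, ?_, hf (by simp [OpD.facets]), hf (by simp [OpD.facets]), ?_⟩
    · simp only [List.nodup_cons, List.mem_cons, List.not_mem_nil, or_false, Vx.u, Vx.b1, Vx.b2,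
        Prod.mk.injEq, not_false_eq_true, List.nodup_nil, and_true, true_and, not_or]
      omega
    · intro v h
      simp only [List.mem_cons, List.not_mem_nil, or_false] at h
      rcases h with rfl | rfl | rfl | rfl | rfl | rfl
      · exact NF.b_mem.2
      · exact hv (by simp [OpD.verts])
      · exact hv (by simp [OpD.verts])
      · exact hv (by simp [OpD.verts])
      · exact hv (by simp [OpD.verts])
      · exact NF.b_mem.1
    · simp only [Fc.GX, ne_eq, Prod.mk.injEq]
      omega
  · refine ⟨by simp, ?_, ?_, hf (by simp [OpD.facets]), hf (by simp [OpD.facets]), ?_⟩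
    · simp only [List.nodup_cons, List.mem_cons, List.not_mem_nil, or_false, Vx.u, Vx.b1, Vx.b2,
        Prod.mk.injEq, not_false_eq_true, List.nodup_nil, and_true, true_and, not_or]
      omega
    · intro v h
      simp only [List.mem_cons, List.not_mem_nil, or_false] at h
      rcases h with rfl | rfl | rfl | rfl | rfl
      · exact NF.b_mem.1
      · exact hv (by simp [OpD.verts])
      · exact hv (by simp [OpD.verts])
      · exact hv (by simp [OpD.verts])
      · exact NF.b_mem.2
    · simp only [Fc.GX, Fc.GY, ne_eq, Prod.mk.injEq]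
      omega
  · refine ⟨by simp, ?_, ?_, hf (by simp [OpD.facets]), hf (by simp [OpD.facets]), ?_⟩
    · simp only [List.nodup_cons, List.mem_cons, List.not_mem_nil, or_false, Vx.u, Vx.b1, Vx.b2,
        Prod.mk.injEq, not_false_eq_true, List.nodup_nil, and_true, true_and, not_or]
      omega
    · intro v h
      simp only [List.mem_cons, List.not_mem_nil, or_false] at h
      rcases h with rfl | rfl | rfl | rfl
      · exact NF.b_mem.2
      · exact hv (by simp [OpD.verts])
      · exact hv (by simp [OpD.verts])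
      · exact NF.b_mem.1
    · simp only [Fc.Q, Fc.GY, ne_eq, Prod.mk.injEq]
      omega
  -- the quadrangles with page 0
  · exact c5_squad hI (by omega) (by omega) (by omega) (by omega) (by omega)
      (hv (by simp [OpD.verts])) (hv (by simp [OpD.verts]))
  · exact c5_squad hI (by omega) (by omega) (by omega) (by omega) (by omega)
      (hv (by simp [OpD.verts])) (hv (by simp [OpD.verts]))
  · exact c5_squad hI (by omega) (by omega) (by omega) (by omega) (by omega)
      (hv (by simp [OpD.verts])) (hv (by simp [OpD.verts]))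
  · exact c5_squad hI (by omega) (by omega) (by omega) (by omega) (by omega)
      (hv (by simp [OpD.verts])) (hv (by simp [OpD.verts]))
  · exact c5_squad hI (by omega) (by omega) (by omega) (by omega) (by omega)
      (hv (by simp [OpD.verts])) (hv (by simp [OpD.verts]))
  · exact c5_squad hI (by omega) (by omega) (by omega) (by omega) (by omega)
      (hv (by simp [OpD.verts])) (hv (by simp [OpD.verts]))
  -- the quadrangles of the gadgets
  all_goals
    refine ⟨by simp, ?_, ?_, hf (by simp [OpD.facets]), hf (by simp [OpD.facets]), ?_⟩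
    · simp only [List.nodup_cons, List.mem_cons, List.not_mem_nil, or_false, Vx.u, Vx.p, Vx.q,
        Prod.mk.injEq, not_false_eq_true, List.nodup_nil, and_true, true_and, not_or]
      omega
    · intro v h
      simp only [List.mem_cons, List.not_mem_nil, or_false] at h
      rcases h with rfl | rfl | rfl | rfl <;> exact hv (by simp [OpD.verts])
    · simp only [Fc.G, ne_eq, Prod.mk.injEq]
      omega

/-- G4-C5 (basic conditions on flats). -/
theorem NF.flat_basic {I : NF} (hI : I.OK) : ∀ R ∈ I.data.flats, 4 ≤ R.1.length ∧ R.1.Nodup ∧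
    (∀ a ∈ R.1, a ∈ I.data.verts) ∧ R.2.1 ∈ I.data.fcodes ∧ R.2.2 ∈ I.data.fcodes ∧
    R.2.1 ≠ R.2.2 := by
  intro R hR
  rcases NF.mem_flats.1 hR with rfl | ⟨d, hd, hR⟩
  · exact c5_page0 hI
  · exact c5_op hI hd hR

end Pool.Agent.Helper2.G4
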