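import Pool.Agent.Helper22.G4.GenFam

/-! # G4-G6: list facts about the simplices at the flats -/

namespace Pool.Agent.Helper2.G4

open Pool.Agent.Helper22.G4

/-! ### consecutive pairs -/

theorem g6_mem_cyc {α : Type} {l : List α} (hl : 4 ≤ l.length) {e : α × α}
    (he : e ∈ cycPairs l) : ∃ (i : ℕ) (hi : i < l.length),
      e.1 = l[i] ∧ e.2 = l[(i + 1) % l.length]'(Nat.mod_lt _ (by omega)) := by
  have hrot : l.tail ++ l.take 1 = l.rotate 1 := by
    rw [List.rotate_eq_drop_append_take (by omega), List.drop_one]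
  unfold cycPairs at he
  rw [hrot] at he
  obtain ⟨i, hi, hei⟩ := List.getElem_of_mem he
  have hi' : i < l.length := by
    rw [List.length_zip, List.length_rotate] at hi
    omega
  refine ⟨i, hi', ?_⟩
  rw [List.getElem_zip, List.getElem_rotate] at hei
  rw [← hei]
  exact ⟨rfl, rfl⟩

theorem g6_cyc_mem {α : Type} {l : List α} (hl : 4 ≤ l.length) {e : α × α}
    (he : e ∈ cycPairs l) : e.1 ∈ l ∧ e.2 ∈ l := by
  obtain ⟨i, hi, h1, h2⟩ := g6_mem_cyc hl he
  rw [h1, h2]
  exact ⟨List.getElem_mem _, List.getElem_mem _⟩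

theorem g6_mod {n i j : ℕ} (hn : 4 ≤ n) (hi : i < n) (hj : j < n) (h1 : i = (j + 1) % n)
    (h2 : (i + 1) % n = j) : False := by
  rcases Nat.lt_or_ge (i + 1) n with h | h
  · rw [Nat.mod_eq_of_lt h] at h2
    subst h2
    rcases Nat.lt_or_ge (i + 1 + 1) n with h' | h'
    · rw [Nat.mod_eq_of_lt h'] at h1
      omega
    · have : i + 1 + 1 = n := by omega
      rw [this, Nat.mod_self] at h1
      omega
  · have h3 : i + 1 = n := by omega
    rw [h3, Nat.mod_self] at h2
    subst h2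
    rw [Nat.mod_eq_of_lt (by omega)] at h1
    omega

theorem g6_cyc_ne {α : Type} {l : List α} (hl : 4 ≤ l.length) (hnd : l.Nodup) {e : α × α}
    (he : e ∈ cycPairs l) : e.1 ≠ e.2 := by
  obtain ⟨i, hi, h1, h2⟩ := g6_mem_cyc hl he
  intro h
  rw [h1, h2, hnd.getElem_inj_iff] at h
  rcases Nat.lt_or_ge (i + 1) l.length with h' | h'
  · rw [Nat.mod_eq_of_lt h'] at h
    omega
  · have h3 : i + 1 = l.length := by omega
    rw [h3, Nat.mod_self] at h
    omega

theorem g6_cyc_swap {α : Type} {l : List α} (hl : 4 ≤ l.length) (hnd : l.Nodup) {e e' : α × α}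
    (he : e ∈ cycPairs l) (he' : e' ∈ cycPairs l) (h1 : e.1 = e'.2) (h2 : e.2 = e'.1) :
    False := by
  obtain ⟨i, hi, a1, a2⟩ := g6_mem_cyc hl he
  obtain ⟨j, hj, b1, b2⟩ := g6_mem_cyc hl he'
  rw [a1, b2, hnd.getElem_inj_iff] at h1
  rw [a2, b1, hnd.getElem_inj_iff] at h2
  exact g6_mod hl hi hj h1 h2

/-! ### the members of `Ts` -/

variable {α φ : Type} [DecidableEq α] [DecidableEq φ]

theorem g6_cases {R : Flat α φ} {T : List (W α φ)} (hT : T ∈ Ts R) :
    (∃ e ∈ cycPairs R.1, T = [W.p R, W.x R.2.1, W.v e.1, W.v e.2]) ∨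
    (∃ e ∈ cycPairs R.1, T = [W.q R, W.x R.2.2, W.v e.1, W.v e.2]) ∨
    (∃ e ∈ cycPairs R.1, e ∈ (cycPairs R.1).take 1 ∧
      (T = [W.p R, W.q R, W.v e.1, W.v e.2] ∨ T = [W.p R, W.q R, W.x R.2.1, W.v e.1] ∨
        T = [W.p R, W.q R, W.x R.2.1, W.v e.2])) := by
  unfold Ts at hT
  rw [List.mem_append, List.mem_flatMap, List.mem_flatMap] at hT
  rcases hT with ⟨e, he, h⟩ | ⟨e, he, h⟩
  · have he' := List.mem_of_mem_drop he
    simp only [List.mem_cons, List.not_mem_nil, or_false] at h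
    rcases h with h | h
    · exact Or.inl ⟨e, he', h⟩
    · exact Or.inr (Or.inl ⟨e, he', h⟩)
  · have he' := List.mem_of_mem_take he
    simp only [List.mem_cons, List.not_mem_nil, or_false] at h
    exact Or.inr (Or.inr ⟨e, he', he, h⟩)

theorem g6_take_eq {l : List (α × α)} {e e' : α × α} (he : e ∈ l.take 1) (he' : e' ∈ l.take 1) :
    e = e' := by
  cases l with
  | nil => simp at he
  | cons a l =>
    simp only [List.take_succ_cons, List.take_zero, List.mem_cons, List.not_mem_nil,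
      or_false] at he he'
    rw [he, he']

theorem g6_l3_v {D : Data α φ} {a : α} (h : a ∈ D.verts) : W.v a ∈ D.l3 := by
  unfold Data.l3 Data.l2 Data.l1 Data.l0
  simp only [List.mem_append, List.mem_map]
  exact Or.inl (Or.inl (Or.inl ⟨a, h, rfl⟩))

theorem g6_l3_x {D : Data α φ} {f : φ} (h : f ∈ D.fcodes) : W.x f ∈ D.l3 := by
  unfold Data.l3 Data.l2 Data.l1 Data.l0
  simp only [List.mem_append, List.mem_map]
  exact Or.inl (Or.inl (Or.inr ⟨f, h, rfl⟩))

theorem g6_l3_p {D : Data α φ} {R : Flat α φ} (h : R ∈ D.flats) : W.p R ∈ D.l3 := by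
  unfold Data.l3 Data.l2 Data.l1 Data.l0
  simp only [List.mem_append, List.mem_map]
  exact Or.inl (Or.inr ⟨R, h, rfl⟩)

theorem g6_l3_q {D : Data α φ} {R : Flat α φ} (h : R ∈ D.flats) : W.q R ∈ D.l3 := by
  unfold Data.l3 Data.l2 Data.l1 Data.l0
  simp only [List.mem_append, List.mem_map]
  exact Or.inr ⟨R, h, rfl⟩

/-- G4-G6 (list facts about the simplices at the flats). -/
theorem gen_T_list {D : Data α φ} (hD : D.Good) : ∀ R ∈ D.flats, ∀ T ∈ Ts R, T.Nodup ∧
    T.length = 4 ∧ ∀ w ∈ T, w ∈ D.l3 := by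
  intro R hR T hT
  have hlen := hD.len R hR
  have hnd := hD.nd R hR
  rcases g6_cases hT with ⟨e, he, rfl⟩ | ⟨e, he, rfl⟩ | ⟨e, he, _, rfl | rfl | rfl⟩
  all_goals
    have hne := g6_cyc_ne hlen hnd he
    obtain ⟨m1, m2⟩ := g6_cyc_mem hlen he
    have v1 := g6_l3_v (hD.sub R hR _ m1)
    have v2 := g6_l3_v (hD.sub R hR _ m2)
    have x1 := g6_l3_x (hD.mem1 R hR)
    have x2 := g6_l3_x (hD.mem2 R hR)
    have p1 := g6_l3_p hR
    have q1 := g6_l3_q hR
    refine ⟨?_, rfl, ?_⟩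
    · simp [W.p, W.x, W.v, W.q, hne]
    · intro w hw
      simp only [List.mem_cons, List.not_mem_nil, or_false] at hw
      rcases hw with rfl | rfl | rfl | rfl <;> assumption

/-- G4-G6 -/
theorem gen_T_inj {D : Data α φ} (hD : D.Good) : ∀ R ∈ D.flats, ∀ S ∈ D.flats, ∀ T ∈ Ts R,
    ∀ U ∈ Ts S, ({w | w ∈ T} : Set (W α φ)) = {w | w ∈ U} → T = U := by
  intro R hR S hS T hT U hU hTU
  have hlen := hD.len R hR
  have hnd := hD.nd R hR
  have key : ∀ w, w ∈ T ↔ w ∈ U := fun w => by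
    have := Set.ext_iff.1 hTU w
    simpa using this
  rcases g6_cases hT with ⟨e, he, rfl⟩ | ⟨e, he, rfl⟩ | ⟨e, he, he1, rfl | rfl | rfl⟩
  · -- type A
    have hp := (key (W.p R)).1 (by simp)
    have hx := (key (W.x R.2.1)).1 (by simp)
    have hv1 := (key (W.v e.1)).1 (by simp)
    have hv2 := (key (W.v e.2)).1 (by simp)
    have hq : W.q R ∉ U := fun h => by
      have := (key (W.q R)).2 h
      simp [W.p, W.x, W.v, W.q] at this
    rcases g6_cases hU with ⟨e', he', rfl⟩ | ⟨e', he', rfl⟩ | ⟨e', he', he1', rfl | rfl | rfl⟩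
    · simp only [W.p, W.x, W.v, List.mem_cons, Sum.inr.injEq, Sum.inl.injEq, reduceCtorEq,
        List.not_mem_nil, or_false, false_or, or_self] at hp hv1 hv2
      subst hp
      rcases hv1 with a1 | a1 <;> rcases hv2 with a2 | a2
      · exact absurd (a1.trans a2.symm) (g6_cyc_ne hlen hnd he)
      · rw [a1, a2]
      · exact (g6_cyc_swap hlen hnd he he' a1 a2).elim
      · exact absurd (a1.trans a2.symm) (g6_cyc_ne hlen hnd he)
    · simp [W.p, W.x, W.v, W.q] at hp
    all_goals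
      simp only [W.p, W.q, W.x, W.v, List.mem_cons, Sum.inr.injEq, Sum.inl.injEq, reduceCtorEq,
        List.not_mem_nil, or_false, false_or, or_self] at hp
      subst hp
      exact absurd (by simp) hq
  · -- type B
    have hp := (key (W.q R)).1 (by simp)
    have hx := (key (W.x R.2.2)).1 (by simp)
    have hv1 := (key (W.v e.1)).1 (by simp)
    have hv2 := (key (W.v e.2)).1 (by simp)
    have hq : W.p R ∉ U := fun h => by
      have := (key (W.p R)).2 h
      simp [W.p, W.x, W.v, W.q] at this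
    rcases g6_cases hU with ⟨e', he', rfl⟩ | ⟨e', he', rfl⟩ | ⟨e', he', he1', rfl | rfl | rfl⟩
    · simp [W.p, W.x, W.v, W.q] at hp
    · simp only [W.q, W.x, W.v, List.mem_cons, Sum.inr.injEq, Sum.inl.injEq, reduceCtorEq,
        List.not_mem_nil, or_false, false_or, or_self] at hp hv1 hv2
      subst hp
      rcases hv1 with a1 | a1 <;> rcases hv2 with a2 | a2
      · exact absurd (a1.trans a2.symm) (g6_cyc_ne hlen hnd he)
      · rw [a1, a2]
      · exact (g6_cyc_swap hlen hnd he he' a1 a2).elim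
      · exact absurd (a1.trans a2.symm) (g6_cyc_ne hlen hnd he)
    all_goals
      simp only [W.p, W.q, W.x, W.v, List.mem_cons, Sum.inr.injEq, Sum.inl.injEq, reduceCtorEq,
        List.not_mem_nil, or_false, false_or, or_self] at hp
      subst hp
      exact absurd (by simp) hq
  all_goals
    have hp := (key (W.p R)).1 (by simp)
    have hq := (key (W.q R)).1 (by simp)
    rcases g6_cases hU with ⟨e', he', rfl⟩ | ⟨e', he', rfl⟩ | ⟨e', he', he1', rfl | rfl | rfl⟩
    · simp [W.p, W.x, W.v, W.q] at hq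
    · simp [W.p, W.x, W.v, W.q] at hp
    all_goals
      simp only [W.p, W.q, W.x, W.v, List.mem_cons, Sum.inr.injEq, Sum.inl.injEq, reduceCtorEq,
        List.not_mem_nil, or_false, false_or, or_self] at hp
      subst hp
      obtain rfl := g6_take_eq he1 he1'
      have hne := g6_cyc_ne hlen hnd he
      first
        | rfl
        | (exfalso
           have k1 := key (W.x R.2.1)
           have k2 := key (W.v e.1)
           have k3 := key (W.v e.2)
           simp [W.p, W.x, W.v, W.q, hne, hne.symm] at k1 k2 k3)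

theorem g6_padj_symm {D : Data α φ} {a b : α} (h : D.padj a b) : D.padj b a := by
  refine ⟨h.1.symm, fun t ht h1 h2 => ?_⟩
  obtain ⟨f, hf, h3, h4, h5⟩ := h.2 t ht h2 h1
  exact ⟨f, hf, h4, h3, h5⟩

/-- G4-G6 (they are cliques of the graph). -/
theorem gen_T_clique {D : Data α φ} (hD : D.Good) : ∀ R ∈ D.flats, ∀ T ∈ Ts R, ∀ s ∈ T, ∀ t ∈ T,
    s ≠ t → D.adjW s t := by
  intro R hR T hT s hs t ht hst
  have hlen := hD.len R hR
  have hnd := hD.nd R hR
  have mem1 : ∀ a ∈ R.1, D.mem R.2.1 a = true := fun a ha =>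
    ((hD.inter R hR a (hD.sub R hR a ha)).2 ha).1
  have mem2 : ∀ a ∈ R.1, D.mem R.2.2 a = true := fun a ha =>
    ((hD.inter R hR a (hD.sub R hR a ha)).2 ha).2
  have e1 : D.eIn R R.2.1 = true := by
    unfold Data.eIn
    rw [List.all_eq_true]
    exact fun a ha => mem1 a (List.mem_of_mem_take ha)
  have e2 : D.eIn R R.2.2 = true := by
    unfold Data.eIn
    rw [List.all_eq_true]
    exact fun a ha => mem2 a (List.mem_of_mem_take ha)
  have adj1 : ∀ e ∈ cycPairs R.1, D.padj e.1 e.2 := hD.edge R hR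
  have adj2 : ∀ e ∈ cycPairs R.1, D.padj e.2 e.1 := fun e he => g6_padj_symm (adj1 e he)
  have px : D.adjW (W.p R) (W.x R.2.1) := rfl
  have xp : D.adjW (W.x R.2.1) (W.p R) := rfl
  have qx1 : D.adjW (W.q R) (W.x R.2.1) := e1
  have xq1 : D.adjW (W.x R.2.1) (W.q R) := e1
  have qx2 : D.adjW (W.q R) (W.x R.2.2) := e2
  have xq2 : D.adjW (W.x R.2.2) (W.q R) := e2
  have pq : D.adjW (W.p R) (W.q R) := rfl
  have qp : D.adjW (W.q R) (W.p R) := rfl
  have pv : ∀ a ∈ R.1, D.adjW (W.p R) (W.v a) := fun a ha => ha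
  have vp : ∀ a ∈ R.1, D.adjW (W.v a) (W.p R) := fun a ha => ha
  have qv : ∀ a ∈ R.1, D.adjW (W.q R) (W.v a) := fun a ha => Or.inl ha
  have vq : ∀ a ∈ R.1, D.adjW (W.v a) (W.q R) := fun a ha => Or.inl ha
  have xv1 : ∀ a ∈ R.1, D.adjW (W.x R.2.1) (W.v a) := fun a ha => mem1 a ha
  have vx1 : ∀ a ∈ R.1, D.adjW (W.v a) (W.x R.2.1) := fun a ha => mem1 a ha
  have xv2 : ∀ a ∈ R.1, D.adjW (W.x R.2.2) (W.v a) := fun a ha => mem2 a ha
  have vx2 : ∀ a ∈ R.1, D.adjW (W.v a) (W.x R.2.2) := fun a ha => mem2 a ha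
  have vv1 : ∀ e ∈ cycPairs R.1, D.adjW (W.v e.1) (W.v e.2) := fun e he => adj1 e he
  have vv2 : ∀ e ∈ cycPairs R.1, D.adjW (W.v e.2) (W.v e.1) := fun e he => adj2 e he
  rcases g6_cases hT with ⟨e, he, rfl⟩ | ⟨e, he, rfl⟩ | ⟨e, he, _, rfl | rfl | rfl⟩
  all_goals
    obtain ⟨m1, m2⟩ := g6_cyc_mem hlen he
    have a1 := pv _ m1
    have a2 := pv _ m2
    have a3 := vp _ m1
    have a4 := vp _ m2
    have a5 := qv _ m1
    have a6 := qv _ m2
    have a7 := vq _ m1
    have a8 := vq _ m2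
    have b1 := xv1 _ m1
    have b2 := xv1 _ m2
    have b3 := vx1 _ m1
    have b4 := vx1 _ m2
    have b5 := xv2 _ m1
    have b6 := xv2 _ m2
    have b7 := vx2 _ m1
    have b8 := vx2 _ m2
    have c1 := vv1 e he
    have c2 := vv2 e he
    simp only [List.mem_cons, List.not_mem_nil, or_false] at hs ht
    rcases hs with rfl | rfl | rfl | rfl <;> rcases ht with rfl | rfl | rfl | rfl <;>
      first
        | exact absurd rfl hst
        | assumption

end Pool.Agent.Helper2.G4
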