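import Pool.Agent.Helper22.G4.Real

/-! # G4-R5: lowering page `0` -/

namespace Pool.Agent.Helper22.G4

open Submodule

/-- G4-R5 (lowering page `0`). -/
theorem fan_exists {I : NF} (hI : I.OK) (G : Geo I) : ∃ G' : Geo I, G'.Fan := by
  have key : ∀ a b s : ℕ, 1 ≤ a → b ≠ a → b ≠ a + 1 → ∀ᶠ L : ℝ in Filter.atTop,
      (G.T 0 s - L) * (((b : ℝ) - a) * (b - a - 1) / (a * (a + 1))) +
        G.T a s * (b * (a + 1 - b) / a) + G.T (a + 1) s * (b * (b - a) / (a + 1)) < G.T b s := by
    intro a b s ha hba hba1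
    have ha' : (1 : ℝ) ≤ a := by exact_mod_cast ha
    have hc : 0 < ((b : ℝ) - a) * (b - a - 1) / (a * (a + 1)) := by
      apply div_pos
      · rcases Nat.lt_or_ge b a with h | h
        · have h1 : (b : ℝ) < a := by exact_mod_cast h
          exact mul_pos_of_neg_of_neg (by linarith) (by linarith)
        · have h1 : a + 2 ≤ b := by omega
          have h2 : (a : ℝ) + 2 ≤ b := by exact_mod_cast h1
          exact mul_pos (by linarith) (by linarith)
      · positivity
    have ht : Filter.Tendsto (fun L : ℝ => L * (((b : ℝ) - a) * (b - a - 1) / (a * (a + 1))))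
        Filter.atTop Filter.atTop := Filter.tendsto_id.atTop_mul_const hc
    filter_upwards [ht.eventually_gt_atTop (G.T 0 s * (((b : ℝ) - a) * (b - a - 1) / (a * (a + 1))) +
      G.T a s * (b * (a + 1 - b) / a) + G.T (a + 1) s * (b * (b - a) / (a + 1)) - G.T b s)]
      with L hL
    rw [sub_mul]
    linarith
  have all : ∀ᶠ L : ℝ in Filter.atTop, ∀ a ∈ Finset.range (I.M + 1), ∀ b ∈ Finset.range (I.M + 1),
      ∀ s ∈ Finset.range (I.N + 1), 1 ≤ a → b ≠ a → b ≠ a + 1 →
      (G.T 0 s - L) * (((b : ℝ) - a) * (b - a - 1) / (a * (a + 1))) +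
        G.T a s * (b * (a + 1 - b) / a) + G.T (a + 1) s * (b * (b - a) / (a + 1)) < G.T b s := by
    rw [Filter.eventually_all_finset]
    intro a _
    rw [Filter.eventually_all_finset]
    intro b _
    rw [Filter.eventually_all_finset]
    intro s _
    by_cases h : 1 ≤ a ∧ b ≠ a ∧ b ≠ a + 1
    · filter_upwards [key a b s h.1 h.2.1 h.2.2] with L hL
      exact fun _ _ _ => hL
    · exact Filter.Eventually.of_forall fun L h1 h2 h3 => absurd ⟨h1, h2, h3⟩ h
  obtain ⟨L, hL⟩ := all.exists
  have hpa : ∀ d : OpD, d.pa ≠ 0 := fun d => by unfold OpD.pa; omega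
  have hpb : ∀ d : OpD, d.pb ≠ 0 := fun d => by unfold OpD.pb; omega
  have hpc : ∀ d : OpD, d.pc ≠ 0 := fun d => by unfold OpD.pc; omega
  have hpd : ∀ d : OpD, d.pd ≠ 0 := fun d => by unfold OpD.pd; omega
  refine ⟨⟨G.al, G.X, fun a i => if a = 0 then G.H a i - L else G.H a i,
    fun a s => if a = 0 then G.T a s - L else G.T a s, G.mono, ?_, ?_⟩, ?_⟩
  · intro a i j hp s hs
    obtain ⟨h1, h2⟩ := G.tan a i j hp s hs
    by_cases h0 : a = 0
    · simp only [h0, if_true] at h1 h2 ⊢
      refine ⟨by linarith, ?_⟩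
      rw [← h2]
      constructor
      · intro h; linarith
      · intro h; linarith
    · simp only [h0, if_false]
      exact ⟨h1, h2⟩
  · intro d hd
    simp only [hpa d, hpb d, hpc d, hpd d, if_false]
    exact G.keep d hd
  · intro a b s ha haM hbM hb0 hba hba1 hs
    have := hL a (Finset.mem_range.mpr (by omega)) b (Finset.mem_range.mpr (by omega)) s
      (Finset.mem_range.mpr (by omega)) ha hba hba1
    have ha0 : a ≠ 0 := by omega
    simpa only [if_true, ha0, hb0, Nat.succ_ne_zero, if_false] using this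

end Pool.Agent.Helper22.G4
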