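import Pool.Agent.Helper22.G4.Base
import Pool.Agent.Helper22.G4.GenFam

/-! # G4-S3: gadgets, linear algebra -/

namespace Pool.Agent.Helper22.G4

open Submodule

theorem s3_range4 (a b c d : E5) : Set.range ![a, b, c, d] = ({a, b, c, d} : Set E5) := by
  ext z
  constructor
  · rintro ⟨i, rfl⟩
    fin_cases i <;> simp
  · intro hz
    simp only [Set.mem_insert_iff, Set.mem_singleton_iff] at hz
    rcases hz with rfl | rfl | rfl | rfl
    · exact ⟨0, rfl⟩
    · exact ⟨1, rfl⟩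
    · exact ⟨2, rfl⟩
    · exact ⟨3, rfl⟩

theorem s3_rel {a b c d : E5}
    (h : Module.finrank ℝ (span ℝ ({a, b, c, d} : Set E5)) ≤ 3) :
    ∃ α β γ δ : ℝ, α • a + β • b + γ • c + δ • d = 0 ∧
      (α ≠ 0 ∨ β ≠ 0 ∨ γ ≠ 0 ∨ δ ≠ 0) := by
  have hn : ¬ LinearIndependent ℝ ![a, b, c, d] := by
    intro hl
    have h1 := finrank_span_eq_card hl
    rw [s3_range4] at h1
    rw [h1] at h
    simp at h
  rw [Fintype.not_linearIndependent_iff] at hn
  obtain ⟨g, hg, i, hi⟩ := hn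
  refine ⟨g 0, g 1, g 2, g 3, ?_, ?_⟩
  · simpa [Fin.sum_univ_four] using hg
  · fin_cases i
    · exact Or.inl hi
    · exact Or.inr (Or.inl hi)
    · exact Or.inr (Or.inr (Or.inl hi))
    · exact Or.inr (Or.inr (Or.inr hi))

theorem s3_indep {a b c d : E5}
    (h : Module.finrank ℝ (span ℝ ({a, b, c, d} : Set E5)) = 4) {α β γ δ : ℝ}
    (h0 : α • a + β • b + γ • c + δ • d = 0) : α = 0 ∧ β = 0 ∧ γ = 0 ∧ δ = 0 := by
  have hl : LinearIndependent ℝ ![a, b, c, d] := by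
    rw [linearIndependent_iff_card_eq_finrank_span]
    unfold Set.finrank
    rw [s3_range4, h]
    simp
  rw [Fintype.linearIndependent_iff] at hl
  have := hl ![α, β, γ, δ] (by simpa [Fin.sum_univ_four] using h0)
  exact ⟨this 0, this 1, this 2, this 3⟩

theorem s3_le4 (a b c d : E5) : Module.finrank ℝ (span ℝ ({a, b, c, d} : Set E5)) ≤ 4 := by
  have h := finrank_range_le_card (R := ℝ) (![a, b, c, d])
  unfold Set.finrank at h
  rw [s3_range4] at h
  simpa using h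

/-- G4-S3 (gadgets, linear algebra). -/
theorem gadget_parallel {b₁ b₂ p q x₁ x₂ y₁ y₂ : E5} {τ f g : E5 →ₗ[ℝ] ℝ}
    (hτ₁ : τ b₁ = 0) (hτ₂ : τ b₂ = 0) (hx₁ : τ x₁ = 1) (hx₂ : τ x₂ = 1) (hy₁ : τ y₁ = 1)
    (hy₂ : τ y₂ = 1) (hx : x₂ - x₁ ∈ span ℝ ({b₁, b₂} : Set E5))
    (hy : y₂ - y₁ ∈ span ℝ ({b₁, b₂} : Set E5)) (hxn : x₁ ≠ x₂) (hyn : y₁ ≠ y₂)
    (hf₁ : f b₁ = 0) (hf₂ : f b₂ = 0) (hfx : f x₁ = 0) (hfy : f y₁ ≠ 0)
    (hg₁ : g b₁ = 0) (hg₂ : g b₂ = 0) (hgp : g p = 0) (hgq : g q = 0) (hgx : g x₁ ≠ 0)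
    (h4 : Module.finrank ℝ (span ℝ ({b₁, b₂, p, q} : Set E5)) = 4)
    (hr₁ : Module.finrank ℝ (span ℝ ({p, q, x₁, y₁} : Set E5)) ≤ 3)
    (hr₂ : Module.finrank ℝ (span ℝ ({p, q, x₂, y₂} : Set E5)) ≤ 3) :
    ∃ r : ℝ, r ≠ 0 ∧ x₂ - x₁ = r • (y₂ - y₁) := by
  obtain ⟨s, t, hst⟩ := mem_span_pair.mp hx
  obtain ⟨u, v, huv⟩ := mem_span_pair.mp hy
  have ex : x₂ = x₁ + (s • b₁ + t • b₂) := by rw [hst]; abel
  have ey : y₂ = y₁ + (u • b₁ + v • b₂) := by rw [huv]; abel
  have hfx2 : f x₂ = 0 := by rw [ex]; simp [hf₁, hf₂, hfx]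
  have hfy2 : f y₂ = f y₁ := by rw [ey]; simp [hf₁, hf₂]
  obtain ⟨a1, b1, c1, d1, r1, n1⟩ := s3_rel hr₁
  obtain ⟨a2, b2, c2, d2, r2, n2⟩ := s3_rel hr₂
  have m1 : ¬ (c1 = 0 ∧ d1 = 0) := by
    rintro ⟨hc, hd⟩
    rw [hc, hd] at r1
    have := s3_indep h4 (α := 0) (β := 0) (γ := a1) (δ := b1) (by simpa using r1)
    rcases n1 with h | h | h | h
    · exact h this.2.2.1
    · exact h this.2.2.2
    · exact h hc
    · exact h hd
  have m2 : ¬ (c2 = 0 ∧ d2 = 0) := by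
    rintro ⟨hc, hd⟩
    rw [hc, hd] at r2
    have := s3_indep h4 (α := 0) (β := 0) (γ := a2) (δ := b2) (by simpa using r2)
    rcases n2 with h | h | h | h
    · exact h this.2.2.1
    · exact h this.2.2.2
    · exact h hc
    · exact h hd
  -- the coefficients of `p`, `q` do not vanish
  have k1 : ¬ (a1 = 0 ∧ b1 = 0) := by
    rintro ⟨ha, hb⟩
    rw [ha, hb] at r1
    have hf := congrArg f r1
    have ht := congrArg τ r1
    simp only [map_add, map_smul, zero_smul, hfx, hx₁, hy₁, map_zero, smul_eq_mul, mul_zero,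
      zero_add, mul_one] at hf ht
    have hd : d1 = 0 := by
      rcases mul_eq_zero.mp hf with h | h
      · exact h
      · exact absurd h hfy
    exact m1 ⟨by linarith, hd⟩
  have k2 : ¬ (a2 = 0 ∧ b2 = 0) := by
    rintro ⟨ha, hb⟩
    rw [ha, hb] at r2
    have hf := congrArg f r2
    have ht := congrArg τ r2
    simp only [map_add, map_smul, zero_smul, hfx2, hfy2, hx₂, hy₂, map_zero, smul_eq_mul, mul_zero,
      zero_add, mul_one] at hf ht
    have hd : d2 = 0 := by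
      rcases mul_eq_zero.mp hf with h | h
      · exact h
      · exact absurd h hfy
    exact m2 ⟨by linarith, hd⟩
  -- determinant
  have hdet : a1 * b2 - a2 * b1 = 0 := by
    by_contra hne
    have hH1 : c1 • x₁ + d1 • y₁ ∈ span ℝ ({b₁, b₂, x₁, y₁} : Set E5) := by
      apply Submodule.add_mem
      · exact Submodule.smul_mem _ _ (subset_span (by simp))
      · exact Submodule.smul_mem _ _ (subset_span (by simp))
    have hH2 : c2 • x₂ + d2 • y₂ ∈ span ℝ ({b₁, b₂, x₁, y₁} : Set E5) := by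
      rw [ex, ey]
      have hb1 : b₁ ∈ span ℝ ({b₁, b₂, x₁, y₁} : Set E5) := subset_span (by simp)
      have hb2 : b₂ ∈ span ℝ ({b₁, b₂, x₁, y₁} : Set E5) := subset_span (by simp)
      have hxx : x₁ ∈ span ℝ ({b₁, b₂, x₁, y₁} : Set E5) := subset_span (by simp)
      have hyy : y₁ ∈ span ℝ ({b₁, b₂, x₁, y₁} : Set E5) := subset_span (by simp)
      apply Submodule.add_mem
      · exact Submodule.smul_mem _ _ (Submodule.add_mem _ hxx
          (Submodule.add_mem _ (Submodule.smul_mem _ _ hb1) (Submodule.smul_mem _ _ hb2)))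
      · exact Submodule.smul_mem _ _ (Submodule.add_mem _ hyy
          (Submodule.add_mem _ (Submodule.smul_mem _ _ hb1) (Submodule.smul_mem _ _ hb2)))
    have e1 : a1 • p + b1 • q = -(c1 • x₁ + d1 • y₁) := by
      rw [eq_neg_iff_add_eq_zero, ← r1]; abel
    have e2 : a2 • p + b2 • q = -(c2 • x₂ + d2 • y₂) := by
      rw [eq_neg_iff_add_eq_zero, ← r2]; abel
    have hO1 : a1 • p + b1 • q ∈ span ℝ ({b₁, b₂, x₁, y₁} : Set E5) := by
      rw [e1]; exact Submodule.neg_mem _ hH1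
    have hO2 : a2 • p + b2 • q ∈ span ℝ ({b₁, b₂, x₁, y₁} : Set E5) := by
      rw [e2]; exact Submodule.neg_mem _ hH2
    have hp : p ∈ span ℝ ({b₁, b₂, x₁, y₁} : Set E5) := by
      have : (a1 * b2 - a2 * b1) • p ∈ span ℝ ({b₁, b₂, x₁, y₁} : Set E5) := by
        have h : (a1 * b2 - a2 * b1) • p = b2 • (a1 • p + b1 • q) - b1 • (a2 • p + b2 • q) := by
          module
        rw [h]
        exact Submodule.sub_mem _ (Submodule.smul_mem _ _ hO1) (Submodule.smul_mem _ _ hO2)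
      exact (Submodule.smul_mem_iff _ hne).mp this
    have hq : q ∈ span ℝ ({b₁, b₂, x₁, y₁} : Set E5) := by
      have : (a1 * b2 - a2 * b1) • q ∈ span ℝ ({b₁, b₂, x₁, y₁} : Set E5) := by
        have h : (a1 * b2 - a2 * b1) • q = a1 • (a2 • p + b2 • q) - a2 • (a1 • p + b1 • q) := by
          module
        rw [h]
        exact Submodule.sub_mem _ (Submodule.smul_mem _ _ hO2) (Submodule.smul_mem _ _ hO1)
      exact (Submodule.smul_mem_iff _ hne).mp this
    have hle : span ℝ ({b₁, b₂, p, q} : Set E5) ≤ span ℝ ({b₁, b₂, x₁, y₁} : Set E5) := by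
      rw [span_le]
      intro z hz
      simp only [Set.mem_insert_iff, Set.mem_singleton_iff] at hz
      rcases hz with rfl | rfl | rfl | rfl
      · exact subset_span (by simp)
      · exact subset_span (by simp)
      · exact hp
      · exact hq
    have heq : span ℝ ({b₁, b₂, p, q} : Set E5) = span ℝ ({b₁, b₂, x₁, y₁} : Set E5) :=
      Submodule.eq_of_le_of_finrank_le hle (by rw [h4]; exact s3_le4 _ _ _ _)
    have hxmem : x₁ ∈ span ℝ ({b₁, b₂, p, q} : Set E5) := by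
      rw [heq]; exact subset_span (by simp)
    have hker : span ℝ ({b₁, b₂, p, q} : Set E5) ≤ LinearMap.ker g := by
      rw [span_le]
      intro z hz
      simp only [Set.mem_insert_iff, Set.mem_singleton_iff] at hz
      rcases hz with rfl | rfl | rfl | rfl
      · exact hg₁
      · exact hg₂
      · exact hgp
      · exact hgq
    exact hgx (hker hxmem)
  -- proportional
  obtain ⟨κ, hκ, hka, hkb⟩ : ∃ κ : ℝ, κ ≠ 0 ∧ a2 = κ * a1 ∧ b2 = κ * b1 := by
    by_cases ha : a1 = 0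
    · have hb : b1 ≠ 0 := fun h => k1 ⟨ha, h⟩
      have ha2 : a2 = 0 := by
        rw [ha] at hdet
        have : a2 * b1 = 0 := by linarith
        exact (mul_eq_zero.mp this).resolve_right hb
      refine ⟨b2 / b1, ?_, ?_, ?_⟩
      · exact div_ne_zero (fun h => k2 ⟨ha2, h⟩) hb
      · rw [ha, ha2]; ring
      · field_simp
    · refine ⟨a2 / a1, ?_, ?_, ?_⟩
      · refine div_ne_zero (fun h => ?_) ha
        rw [h] at hdet
        have : a1 * b2 = 0 := by linarith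
        exact k2 ⟨h, (mul_eq_zero.mp this).resolve_left ha⟩
      · field_simp
      · field_simp; linarith
  have key : c2 • x₂ + d2 • y₂ = κ • (c1 • x₁ + d1 • y₁) := by
    have e1 : c1 • x₁ + d1 • y₁ = -(a1 • p + b1 • q) := by
      rw [eq_neg_iff_add_eq_zero, ← r1]; abel
    have e2 : c2 • x₂ + d2 • y₂ = -(a2 • p + b2 • q) := by
      rw [eq_neg_iff_add_eq_zero, ← r2]; abel
    rw [e1, e2, hka, hkb]
    module
  have kf := congrArg f key
  have kt := congrArg τ key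
  simp only [map_add, map_smul, hfx, hfx2, hfy2, hx₁, hx₂, hy₁, hy₂, smul_eq_mul, mul_zero,
    zero_add, mul_one] at kf kt
  have hd : d2 = κ * d1 := by
    have : (d2 - κ * d1) * f y₁ = 0 := by linarith
    have := (mul_eq_zero.mp this).resolve_right hfy
    linarith
  have hc : c2 = κ * c1 := by rw [hd] at kt; linarith
  rw [hc, hd] at key
  have key2 : c1 • (x₂ - x₁) + d1 • (y₂ - y₁) = 0 := by
    have : κ • (c1 • (x₂ - x₁) + d1 • (y₂ - y₁)) = 0 := by
      have h : κ • (c1 • (x₂ - x₁) + d1 • (y₂ - y₁)) =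
          ((κ * c1) • x₂ + (κ * d1) • y₂) - κ • (c1 • x₁ + d1 • y₁) := by module
      rw [h, key, sub_self]
    exact (smul_eq_zero.mp this).resolve_left hκ
  have hc1 : c1 ≠ 0 := by
    intro h
    rw [h, zero_smul, zero_add] at key2
    rcases smul_eq_zero.mp key2 with h' | h'
    · exact m1 ⟨h, h'⟩
    · exact hyn (sub_eq_zero.mp h').symm
  have hd1 : d1 ≠ 0 := by
    intro h
    rw [h, zero_smul, add_zero] at key2
    rcases smul_eq_zero.mp key2 with h' | h'
    · exact m1 ⟨h', h⟩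
    · exact hxn (sub_eq_zero.mp h').symm
  refine ⟨-d1 / c1, div_ne_zero (neg_ne_zero.mpr hd1) hc1, ?_⟩
  have h1 : c1 • (x₂ - x₁) = -(d1 • (y₂ - y₁)) := eq_neg_of_add_eq_zero_left key2
  have h2 : x₂ - x₁ = c1⁻¹ • (c1 • (x₂ - x₁)) := by rw [smul_smul, inv_mul_cancel₀ hc1, one_smul]
  rw [h2, h1, ← neg_smul, smul_smul]
  congr 1
  field_simp

end Pool.Agent.Helper22.G4
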