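import Pool.Agent.Helper22.G4.Poly

/-! # G4-T1: polynomial time of the first step -/

namespace Pool.Agent.Helper2.G4

open Pool.Agent.Helper22.G4 Pool.Agent.Helper89 Pool.Agent.Helper91.PolyTime

/-- states as tuples -/
abbrev SE : Type := ℕ × List ℕ × ℕ

/-- environments as tuples -/
abbrev EE : Type := ℕ × ℕ × ℕ × ℕ

def St.tup (s : Helper89.St) : SE := (s.p, s.stk, s.h)
def Env.tup (v : Env) : EE := (v.p, v.l, v.r, v.h)

def envT (t : Tok) (s : SE) : EE :=
  (s.1, if arity t = 2 then s.2.1.tail.headD 0 else 0, if arity t = 0 then 0 else s.2.1.headD 0,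
    s.2.2)

def nextT (t : Tok) (s : SE) : SE :=
  (s.1 + 1, if t = .tick then s.2.1 else s.1 :: s.2.1.drop (arity t),
    if t = .tick then s.2.2 + 1 else 0)

theorem envT_tup (t : Tok) (s : Helper89.St) : envT t (St.tup s) = Env.tup (envOf t s) := rfl

theorem nextT_tup (t : Tok) (s : Helper89.St) : nextT t (St.tup s) = St.tup (next t s) := rfl

/-- the blocks, by a left fold -/
def stepT (s : SE × List (Option Tok × EE)) (t : Tok) : SE × List (Option Tok × EE) :=
  (nextT t s.1, s.2 ++ [(some t, envT t s.1)])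

def bT (b : Option Tok × Env) : Option Tok × EE := (b.1, Env.tup b.2)

theorem foldl_stepT (ts : List Tok) : ∀ (s : Helper89.St) (acc : List (Option Tok × EE)),
    ts.foldl stepT (St.tup s, acc) = (St.tup (nextL ts s), acc ++ (blks ts s).map bT) := by
  induction ts with
  | nil => intro s acc; simp [nextL, blks]
  | cons t ts ih =>
    intro s acc
    rw [List.foldl_cons]
    have h1 : stepT (St.tup s, acc) t = (St.tup (next t s), acc ++ [(some t, Env.tup (envOf t s))]) :=
      rfl
    rw [h1, ih]
    have h2 : nextL (t :: ts) s = nextL ts (next t s) := rfl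
    rw [h2]
    simp [blks, bT]

/-- number of a real variable, for tuples -/
def rrefT (v : EE) : RRef → ℕ
  | .zero => 0
  | .one => 1
  | .cur j => 2 + 7 * v.1 + j
  | .lft => 2 + 7 * v.2.1
  | .rgt => 2 + 7 * v.2.2.1
  | .hom => 2 + 7 * v.2.2.2 + 6

theorem rrefT_tup (v : Env) (r : RRef) : rrefT (Env.tup v) r = rref v r := by
  cases r <;> rfl

def quadT (v : EE) (q : Quad RRef) : Q4 := (rrefT v q.i, rrefT v q.j, rrefT v q.k, rrefT v q.l)

theorem ptf_rrefT (r : RRef) : PTF fun v : EE => rrefT v r := by
  cases r with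
  | one => exact PTF.const 1
  | zero => exact PTF.const 0
  | cur j => exact PTF.add (PTF.add (PTF.const 2) (PTF.mul (PTF.const 7) PTF.id.fst)) (PTF.const j)
  | lft => exact PTF.add (PTF.const 2) (PTF.mul (PTF.const 7) PTF.id.snd.fst)
  | rgt => exact PTF.add (PTF.const 2) (PTF.mul (PTF.const 7) PTF.id.snd.snd.fst)
  | hom =>
    exact PTF.add (PTF.add (PTF.const 2) (PTF.mul (PTF.const 7) PTF.id.snd.snd.snd)) (PTF.const 6)

theorem ptf_quadT (q : Quad RRef) : PTF fun v : EE => quadT v q :=
  PTF.pair (ptf_rrefT q.i) (PTF.pair (ptf_rrefT q.j) (PTF.pair (ptf_rrefT q.k) (ptf_rrefT q.l)))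

theorem ptf_quads (L : List (Quad RRef)) : PTF fun v : EE => L.map fun q => quadT v q := by
  induction L with
  | nil => exact PTF.const []
  | cons q L ih => exact PTF.cons (ptf_quadT q) ih

theorem ptf_headD : PTF fun l : List ℕ => l.headD 0 := by
  refine (PTF.listCase (α := List ℕ) (β := ℕ) (γ := ℕ) (o := fun l => l) (n := fun _ => 0)
    (s := fun _ b _ => b) PTF.id (PTF.const 0) PTF.id.snd.fst).of_eq fun l => ?_
  cases l <;> rfl

instance finiteTok : Finite Tok := inferInstance

theorem ptf_envT : PTF fun p : Tok × SE => envT p.1 p.2 := by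
  refine PTF.finCase (d := fun p : Tok × SE => p.1) (f := fun t p => envT t p.2) PTF.id.fst ?_
  intro t
  unfold envT
  refine PTF.pair PTF.id.snd.fst (PTF.pair ?_ (PTF.pair ?_ PTF.id.snd.snd.snd))
  · by_cases h : arity t = 2
    · simp only [h, if_true]
      exact ptf_headD.comp (PTF.tail PTF.id.snd.snd.fst)
    · simp only [h, if_false]
      exact PTF.const 0
  · by_cases h : arity t = 0
    · simp only [h, if_true]
      exact PTF.const 0
    · simp only [h, if_false]
      exact ptf_headD.comp PTF.id.snd.snd.fst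

theorem ptf_nextT : PTF fun p : Tok × SE => nextT p.1 p.2 := by
  refine PTF.finCase (d := fun p : Tok × SE => p.1) (f := fun t p => nextT t p.2) PTF.id.fst ?_
  intro t
  unfold nextT
  refine PTF.pair (PTF.add PTF.id.snd.fst (PTF.const 1)) (PTF.pair ?_ ?_)
  · by_cases h : t = .tick
    · simp only [h, if_true]
      exact PTF.id.snd.snd.fst
    · simp only [h, if_false]
      exact PTF.cons PTF.id.snd.fst (PTF.drop (PTF.const (arity t)) PTF.id.snd.snd.fst)
  · by_cases h : t = .tick
    · simp only [h, if_true]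
      exact PTF.add PTF.id.snd.snd.snd (PTF.const 1)
    · simp only [h, if_false]
      exact PTF.const 0

theorem ptf_some_tok : PTF fun t : Tok => (some t : Option Tok) := PTF.ofFinite _

theorem ptf_stepT : PTF fun p : List Tok × (SE × List (Option Tok × EE)) × Tok =>
    stepT p.2.1 p.2.2 := by
  unfold stepT
  refine PTF.pair ?_ (PTF.append PTF.id.snd.fst.snd (PTF.cons (PTF.pair ?_ ?_) (PTF.const [])))
  · exact ptf_nextT.comp (PTF.pair PTF.id.snd.snd PTF.id.snd.fst.fst)
  · exact ptf_some_tok.comp PTF.id.snd.snd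
  · exact ptf_envT.comp (PTF.pair PTF.id.snd.snd PTF.id.snd.fst.fst)

/-! ### Sizes -/

theorem length_enc_le {β : Type} [PEnc β] (l : List β) (B : ℕ)
    (h : ∀ b ∈ l, (enc b).length ≤ B) : (enc l).length ≤ l.length * (2 * B + 1) := by
  induction l with
  | nil => simp [enc_nil]
  | cons b l ih =>
    rw [length_enc_cons, List.length_cons, Nat.add_mul]
    have h1 := h b List.mem_cons_self
    have h2 := ih fun x hx => h x (List.mem_cons_of_mem _ hx)
    omega

theorem length_enc_tok (t : Tok) : (enc t).length = 4 := by cases t <;> rfl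

theorem length_enc_some_tok (t : Tok) : (enc (some t : Option Tok)).length = 5 := by
  cases t <;> rfl

/-- sizes of the entries of a state -/
def Sz (n : ℕ) (s : SE) : Prop := s.1 ≤ n ∧ s.2.1.length ≤ n ∧ (∀ x ∈ s.2.1, x ≤ n) ∧ s.2.2 ≤ n

theorem Sz.next {n : ℕ} {s : SE} (h : Sz n s) (t : Tok) : Sz (n + 1) (nextT t s) := by
  obtain ⟨h1, h2, h3, h4⟩ := h
  unfold nextT
  by_cases ht : t = .tick
  · simp only [ht, if_true]
    exact ⟨by simpa using h1, by simp only; omega, fun x hx => (h3 x hx).trans (by omega),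
      by simpa using h4⟩
  · simp only [ht, if_false]
    refine ⟨by simpa using h1, ?_, ?_, by simp⟩
    · simp only [List.length_cons, List.length_drop]
      omega
    · intro x hx
      simp only [List.mem_cons] at hx
      rcases hx with rfl | hx
      · omega
      · exact (h3 x (List.mem_of_mem_drop hx)).trans (by omega)

theorem headD_le {n : ℕ} {l : List ℕ} (h : ∀ x ∈ l, x ≤ n) : l.headD 0 ≤ n := by
  cases l with
  | nil => simp
  | cons a l => exact h a List.mem_cons_self

theorem Sz.env {n : ℕ} {s : SE} (h : Sz n s) (t : Tok) :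
    (envT t s).1 ≤ n ∧ (envT t s).2.1 ≤ n ∧ (envT t s).2.2.1 ≤ n ∧ (envT t s).2.2.2 ≤ n := by
  obtain ⟨h1, h2, h3, h4⟩ := h
  unfold envT
  refine ⟨h1, ?_, ?_, h4⟩
  · simp only
    split_ifs
    · exact headD_le fun x hx => h3 x (List.mem_of_mem_tail hx)
    · omega
  · simp only
    split_ifs
    · omega
    · exact headD_le h3

theorem length_enc_EE (v : EE) :
    (enc v).length = 2 * v.1 + (2 * v.2.1 + (2 * v.2.2.1 + v.2.2.2 + 1) + 1) + 1 := by
  obtain ⟨a, b, c, d⟩ := v
  rw [length_enc_prod, length_enc_prod, length_enc_prod]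
  simp only [length_enc_nat]

theorem foldl_size (l : List Tok) : ∀ (n : ℕ) (s : SE) (acc : List (Option Tok × EE)), Sz n s →
    acc.length ≤ n → (∀ b ∈ acc, (enc b).length ≤ 7 * n + 14) →
    Sz (n + l.length) (l.foldl stepT (s, acc)).1 ∧
      (l.foldl stepT (s, acc)).2.length ≤ n + l.length ∧
      ∀ b ∈ (l.foldl stepT (s, acc)).2, (enc b).length ≤ 7 * (n + l.length) + 14 := by
  induction l with
  | nil => intro n s acc h1 h2 h3; exact ⟨h1, h2, h3⟩
  | cons t l ih =>
    intro n s acc h1 h2 h3
    have h := ih (n + 1) (nextT t s) (acc ++ [(some t, envT t s)]) (h1.next t)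
      (by simp; exact h2) (by
        intro b hb
        simp only [List.mem_append, List.mem_singleton] at hb
        rcases hb with hb | rfl
        · exact (h3 b hb).trans (by omega)
        · rw [length_enc_prod, length_enc_some_tok, length_enc_EE]
          have := h1.env t
          omega)
    have e : n + 1 + l.length = n + (t :: l).length := by simp; omega
    rw [e] at h
    exact h

/-- The blocks, by a left fold. -/
def foldT (ts : List Tok) : SE × List (Option Tok × EE) := ts.foldl stepT ((0, [], 0), [])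

theorem ptf_foldT : PTF foldT := by
  have h := PTF.foldl (α := List Tok) (β := Tok) (σ := SE × List (Option Tok × EE))
    (l := fun ts => ts) (g := fun _ => ((0, [], 0), [])) (F := fun _ s t => stepT s t) PTF.id
    (PTF.const _) ptf_stepT
    (2 * (2 * Polynomial.X + (2 * (Polynomial.X * (2 * Polynomial.X + 1)) + Polynomial.X + 1) + 1) +
      Polynomial.X * (2 * (7 * Polynomial.X + 14) + 1) + 1) (by
      intro ts l' hl'
      obtain ⟨h1, h2, h3⟩ := foldl_size l' 0 (0, [], 0) [] ⟨le_rfl, by simp, by simp, le_rfl⟩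
        (by simp) (by simp)
      simp only [Nat.zero_add] at h1 h2 h3
      have hn : l'.length ≤ (enc ts).length := hl'.length_le.trans (length_le_enc ts)
      generalize l'.foldl (fun s t => stepT s t) ((0, [], 0), []) = S at *
      have h1' : Sz l'.length S.1 := h1
      have h2' : S.2.length ≤ l'.length := h2
      have h3' : ∀ b ∈ S.2, (enc b).length ≤ 7 * l'.length + 14 := h3
      obtain ⟨⟨p, stk, hh⟩, acc⟩ := S
      obtain ⟨a1, a2, a3, a4⟩ := h1'
      simp only at a1 a2 a3 a4 h2' h3'
      have b1 : (enc stk).length ≤ (enc ts).length * (2 * (enc ts).length + 1) := by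
        refine (length_enc_le stk (enc ts).length fun x hx => ?_).trans ?_
        · rw [length_enc_nat]; exact (a3 x hx).trans hn
        · exact Nat.mul_le_mul_right _ (a2.trans hn)
      have b2 : (enc acc).length ≤ (enc ts).length * (2 * (7 * (enc ts).length + 14) + 1) := by
        refine (length_enc_le acc (7 * (enc ts).length + 14) fun x hx => ?_).trans ?_
        · exact (h3' x hx).trans (by omega)
        · exact Nat.mul_le_mul_right _ (h2'.trans hn)
      rw [length_enc_prod, length_enc_prod, length_enc_prod]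
      simp only [length_enc_nat, Polynomial.eval_add, Polynomial.eval_mul, Polynomial.eval_one,
        Polynomial.eval_ofNat, Polynomial.eval_X]
      omega)
  exact h

theorem ptf_finEnvT : PTF fun s : SE => ((s.1, 0, s.2.1.headD 0, s.2.2) : EE) :=
  PTF.pair PTF.id.fst (PTF.pair (PTF.const 0) (PTF.pair (ptf_headD.comp PTF.id.snd.fst)
    PTF.id.snd.snd))

theorem allBlks_eq (ts : List Tok) : (allBlks ts).map bT = (foldT ts).2 ++
    [(none, ((foldT ts).1.1, 0, (foldT ts).1.2.1.headD 0, (foldT ts).1.2.2))] := by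
  have h : foldT ts = (St.tup (nextL ts ⟨0, [], 0⟩), (blks ts ⟨0, [], 0⟩).map bT) := by
    have := foldl_stepT ts ⟨0, [], 0⟩ []
    simpa [foldT, St.tup] using this
  rw [h]
  simp [allBlks, bT, St.tup, finEnv, Env.tup]

theorem ptf_blocks : PTF fun ts : List Tok => (allBlks ts).map bT := by
  refine (PTF.append ptf_foldT.snd (PTF.cons (PTF.pair (PTF.const none)
    (ptf_finEnvT.comp ptf_foldT.fst)) (PTF.const []))).of_eq fun ts => ?_
  exact (allBlks_eq ts).symm

/-- G4-T1 -/
theorem ptf_quadsOf : PTF fun ts : List Tok => quadsOf ts := by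
  have h := PTF.flatMap (α := List Tok) (β := Option Tok × EE) (γ := Q4)
    (l := fun ts => (allBlks ts).map bT) (f := fun _ b => (cons b.1).map fun q => quadT b.2 q)
    ptf_blocks ?_
  · refine h.of_eq fun ts => ?_
    unfold quadsOf
    rw [List.flatMap_map]
    congr 1
  · refine PTF.finCase (d := fun p : List Tok × (Option Tok × EE) => p.2.1)
      (f := fun t p => (cons t).map fun q => quadT p.2.2 q) PTF.id.snd.fst ?_
    intro t
    exact (ptf_quads (cons t)).comp PTF.id.snd.snd

end Pool.Agent.Helper2.G4
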